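import Pool.Agent.RH88.MainZ
import Pool.Agent.RH88.InfZ

/-!
In the random model of the primes with a sieving limit `z m` (the integers `m` with a prime factor `p ≤ z m`
are excluded, the other integers `m ≥ 3` are chosen independently with probability
`min 1 (mert (z m) / log m)`), `z` nondecreasing and at most `(log log m) / 2` for large `m` (Cramer's model for
`z = 0`), almost surely every large `n` is a sum `k + m` such that the least positive residue of the
`k`-th element modulo `k` is an element and the least positive residue of the `m`-th element modulo `m`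
is a square.
-/

set_option autoImplicit false

namespace Pool.Agent.Results.MP_9be292_nt.CramerModel

open MeasureTheory Filter Pool.Agent.RH88 Pool.Agent.RS88

theorem result (z : ℕ → ℕ) (hz : Monotone z)
    (hz2 : ∀ᶠ m : ℕ in atTop, (z m : ℝ) ≤ Real.log (Real.log m) / 2) :
    ∀ᵐ ω ∂(Measure.infinitePi (fun m => Pool.Agent.RG88.coin (z m) m)),
    {m : ℕ | ω m = true}.Infinite ∧
    ∀ᶠ n : ℕ in atTop, ∃ k m : ℕ, 2 ≤ k ∧ 2 ≤ m ∧ k + m = n ∧
      ω (res ω k) = true ∧ IsSquare (res ω m) :=
  (infz ⟨hz, hz2⟩).and (mainz ⟨hz, hz2⟩)

end Pool.Agent.Results.MP_9be292_nt.CramerModel
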